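import Pool.Agent.H15.FLX.Targets

/-!
MP_c62aed_lc, random CNFs, row NMX: the parameters.
-/

set_option autoImplicit false

namespace Pool.Agent.H75.FLX

open Pool.Agent.H15.FLX
open Pool.Agent.H53.MC (tau)

/-- The exponent of the count of exceptions. -/
theorem tau_exp (ε β : ℝ) (n l N k w : ℕ) (hε : 0 < ε) (hN : 1 ≤ ε * N) (hl : 1 ≤ l)
    (hlk : 16384 * l ≤ k) (hkn : 16384 * (k : ℝ) ≤ ε * n) (hwn : w ≤ n)
    (hw : β * n - 1 ≤ (w : ℝ) + k) :
    4 * (tau n (2 ^ (5 * l)) w (80 * l * N) (n / (640 * l * N ^ 2)) : ℝ) ≤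
      2 ^ ((1 - (β - ε)) * n) := by
  have hN1 : 1 ≤ N := by
    rcases Nat.eq_zero_or_pos N with h | h
    · subst h
      norm_num at hN
    · exact h
  have hNR : (0 : ℝ) < N := by exact_mod_cast hN1
  have hlR : (1 : ℝ) ≤ l := by exact_mod_cast hl
  have hl0 : (0 : ℝ) < l := by linarith
  have hn0 : (0 : ℝ) ≤ n := Nat.cast_nonneg n
  have e1 : (4 * (tau n (2 ^ (5 * l)) w (80 * l * N) (n / (640 * l * N ^ 2)) : ℕ) : ℝ) =
      (2 : ℝ) ^ ((2 + 5 * l * (w / (80 * l * N) + 1) + 80 * l * N * (n / (640 * l * N ^ 2)) +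
        (n - w) : ℕ) : ℝ) := by
    rw [Real.rpow_natCast, pow_add, pow_add, pow_add, pow_mul (2 : ℝ) (5 * l)]
    unfold tau
    push_cast
    ring
  rw [e1]
  apply Real.rpow_le_rpow_of_exponent_le (by norm_num)
  have a1 : ((w / (80 * l * N) : ℕ) : ℝ) ≤ n / (80 * l * N) := by
    refine le_trans Nat.cast_div_le ?_
    push_cast
    have : (w : ℝ) ≤ n := by exact_mod_cast hwn
    gcongr
  have a2 : ((n / (640 * l * N ^ 2) : ℕ) : ℝ) ≤ n / (640 * l * N ^ 2) := by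
    refine le_trans Nat.cast_div_le ?_
    push_cast
    exact le_refl _
  have a3 : (n : ℝ) / N ≤ ε * n := by
    rw [div_le_iff₀ hNR]
    nlinarith
  have a4 : 5 * (l : ℝ) * (((w / (80 * l * N) : ℕ) : ℝ) + 1) ≤ ε * n / 16 + 5 * l := by
    calc 5 * (l : ℝ) * (((w / (80 * l * N) : ℕ) : ℝ) + 1)
        ≤ 5 * l * (n / (80 * l * N) + 1) := by
          apply mul_le_mul_of_nonneg_left (by linarith) (by positivity)
      _ = n / N / 16 + 5 * l := by
          field_simp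
          ring
      _ ≤ ε * n / 16 + 5 * l := by linarith
  have a5 : 80 * (l : ℝ) * N * ((n / (640 * l * N ^ 2) : ℕ) : ℝ) ≤ ε * n / 8 := by
    calc 80 * (l : ℝ) * N * ((n / (640 * l * N ^ 2) : ℕ) : ℝ)
        ≤ 80 * l * N * (n / (640 * l * N ^ 2)) := by gcongr
      _ = n / N / 8 := by
          field_simp
          ring
      _ ≤ ε * n / 8 := by linarith
  have a6 : (((n - w : ℕ) : ℕ) : ℝ) = n - w := Nat.cast_sub hwn
  have a7 : (16384 : ℝ) * l ≤ k := by exact_mod_cast hlk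
  have a8 : ((2 + 5 * l * (w / (80 * l * N) + 1) + 80 * l * N * (n / (640 * l * N ^ 2)) +
        (n - w) : ℕ) : ℝ) = 2 + 5 * l * (((w / (80 * l * N) : ℕ) : ℝ) + 1) +
        80 * l * N * ((n / (640 * l * N ^ 2) : ℕ) : ℝ) + (((n - w : ℕ) : ℕ) : ℝ) := by
    push_cast
    ring
  rw [a8, a6]
  have h1 : (1 - (β - ε)) * n = n - β * n + ε * n := by ring
  rw [h1]
  linarith

/-- The last inequality. -/
theorem last_ineq (ε : ℝ) (n l N k : ℕ) (hε : 0 < ε) (hN1 : 1 ≤ N) (hN : ε * N ≤ 2)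
    (hl : 1 ≤ l) (hlk : 16384 * (l : ℝ) ≤ ε ^ 3 * k) :
    2 * (n : ℝ) ≤ ε * k * (((n / (640 * l * N ^ 2) : ℕ) : ℝ) + 1) := by
  have hNR : (0 : ℝ) < N := by exact_mod_cast hN1
  have hl0 : (0 : ℝ) < l := by exact_mod_cast hl
  have hn0 : (0 : ℝ) ≤ n := Nat.cast_nonneg n
  have hk0 : (0 : ℝ) ≤ k := Nat.cast_nonneg k
  have hlt : (n : ℝ) / ((640 * l * N ^ 2 : ℕ) : ℝ) <
      ((n / (640 * l * N ^ 2) : ℕ) : ℝ) + 1 := by
    have := Nat.lt_floor_add_one ((n : ℝ) / ((640 * l * N ^ 2 : ℕ) : ℝ))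
    rwa [Nat.floor_div_natCast, Nat.floor_natCast] at this
  have hz : (0 : ℝ) < ((640 * l * N ^ 2 : ℕ) : ℝ) := by
    push_cast
    positivity
  rw [div_lt_iff₀ hz] at hlt
  push_cast at hlt
  obtain ⟨s, hs⟩ : ∃ s : ℝ, s = ((n / (640 * l * N ^ 2) : ℕ) : ℝ) + 1 := ⟨_, rfl⟩
  rw [← hs] at hlt ⊢
  have hs0 : (0 : ℝ) ≤ s := by
    rw [hs]
    positivity
  -- ε² N² ≤ 4
  have h4 : (ε * N) ^ 2 ≤ 4 := by
    have : 0 ≤ ε * N := by positivity
    nlinarith
  -- 16384 l n ≤ ε³ k n ≤ ε³ k · s · 640 l N²  = (ε k s) (ε N)² 640 l ≤ 2560 l (ε k s)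
  have h5 : 16384 * (l : ℝ) * n ≤ 2560 * l * (ε * k * s) := by
    calc 16384 * (l : ℝ) * n ≤ ε ^ 3 * k * n := by
          apply mul_le_mul_of_nonneg_right hlk hn0
      _ ≤ ε ^ 3 * k * (s * (640 * l * N ^ 2)) := by
          apply mul_le_mul_of_nonneg_left hlt.le (by positivity)
      _ = 640 * l * (ε * k * s) * (ε * N) ^ 2 := by ring
      _ ≤ 640 * l * (ε * k * s) * 4 := by
          apply mul_le_mul_of_nonneg_left h4 (by positivity)
      _ = 2560 * l * (ε * k * s) := by ring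
  have h6 : (l : ℝ) * (16384 * n) ≤ l * (2560 * (ε * k * s)) := by linarith
  have h7 : 16384 * (n : ℝ) ≤ 2560 * (ε * k * s) := le_of_mul_le_mul_left h6 hl0
  linarith

theorem pf_NMX : T_NMX := by
  refine ⟨16384, ?_⟩
  intro ε β n t k μ hε hεβ hβ ht hnt hk hkn htk
  have hε1 : ε < 1 := by linarith
  obtain ⟨l, hl⟩ : ∃ l, l = Nat.log 2 t := ⟨_, rfl⟩
  rw [← hl] at hk
  have hl1 : 1 ≤ l := by
    rw [hl]
    exact Nat.log_pos (by norm_num) (by omega)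
  have ht2 : t < 2 ^ (l + 1) := by
    rw [hl]
    exact Nat.lt_pow_succ_log_self (by norm_num) t
  have hlR : (1 : ℝ) ≤ l := by exact_mod_cast hl1
  have hk0 : (0 : ℝ) ≤ k := Nat.cast_nonneg k
  have hn0 : (0 : ℝ) ≤ n := Nat.cast_nonneg n
  have hk' : 16384 * (l : ℝ) ≤ ε ^ 3 * k := by exact_mod_cast hk
  have hkn' : 16384 * (k : ℝ) ≤ ε * n := by exact_mod_cast hkn
  have hε3 : ε ^ 3 ≤ 1 := pow_le_one₀ hε.le hε1.le
  have hlkR : 16384 * (l : ℝ) ≤ k := by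
    have : ε ^ 3 * k ≤ 1 * k := mul_le_mul_of_nonneg_right hε3 hk0
    linarith
  have hlk : 16384 * l ≤ k := by exact_mod_cast hlkR
  have hεn : ε * n ≤ β * n := mul_le_mul_of_nonneg_right hεβ.le hn0
  have hβn : β * n ≤ n := by
    have := mul_le_mul_of_nonneg_right hβ hn0
    linarith
  obtain ⟨f, hf⟩ : ∃ f, f = ⌊β * n⌋₊ := ⟨_, rfl⟩
  have hβ0 : 0 ≤ β * n := by
    have : 0 ≤ ε * n := by positivity
    linarith
  have hf1 : (f : ℝ) ≤ β * n := by
    rw [hf]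
    exact Nat.floor_le hβ0
  have hf2 : β * n < f + 1 := by
    rw [hf]
    exact Nat.lt_floor_add_one _
  have hf3 : 16384 * k ≤ f := by
    rw [hf]
    apply Nat.le_floor
    push_cast
    linarith
  have hf4 : f ≤ n := by
    have : (f : ℝ) ≤ n := by linarith
    exact_mod_cast this
  have hk1 : 1 ≤ k := by omega
  have hkn1 : k ≤ n := by omega
  obtain ⟨N, hN⟩ : ∃ N, N = ⌈1 / ε⌉₊ := ⟨_, rfl⟩
  have hN1 : 1 / ε ≤ (N : ℝ) := by
    rw [hN]
    exact Nat.le_ceil _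
  have hN2 : (N : ℝ) < 1 / ε + 1 := by
    rw [hN]
    exact Nat.ceil_lt_add_one (by positivity)
  have hN3 : 1 ≤ ε * N := by
    rw [div_le_iff₀ hε] at hN1
    linarith
  have hN4 : ε * N ≤ 2 := by
    have h1 : ε * (N : ℝ) ≤ ε * (1 / ε + 1) := mul_le_mul_of_nonneg_left hN2.le hε.le
    have h2 : ε * (1 / ε + 1) = 1 + ε := by
      field_simp
    linarith
  have hN5 : 1 ≤ N := by
    rcases Nat.eq_zero_or_pos N with h | h
    · rw [h] at hN3
      norm_num at hN3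
    · exact h
  have hs0 : n / (640 * l * N ^ 2) ≤ t := le_trans (Nat.div_le_self _ _) hnt
  have htt : t * t ≤ 2 ^ (2 * l + 2) := by
    calc t * t ≤ 2 ^ (l + 1) * 2 ^ (l + 1) := Nat.mul_le_mul ht2.le ht2.le
      _ = 2 ^ (2 * l + 2) := by rw [← pow_add]; congr 1; ring
  have htt2 : t ≤ t * t := Nat.le_mul_self t
  have h8 : 8 * (n / (640 * l * N ^ 2) * μ) ≤ 2 ^ k := by
    calc 8 * (n / (640 * l * N ^ 2) * μ) ≤ 8 * (t * μ) := by gcongr
      _ ≤ 8 * (t * t * μ) := by gcongr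
      _ ≤ 16384 * t ^ 2 * μ := by
          rw [pow_two]
          calc 8 * (t * t * μ) ≤ 16384 * (t * t * μ) := Nat.mul_le_mul_right _ (by norm_num)
            _ = 16384 * (t * t) * μ := by ring
      _ ≤ 2 ^ k := htk
  refine ⟨f - k, 80 * l * N, n / (640 * l * N ^ 2), 2 ^ (5 * l), t,
    ⟨by omega, hnt, hk1, hkn1, ?_, by omega, by omega, by omega, ?_, by linarith, ?_, ?_, ?_, ?_⟩,
    ?_, ?_⟩
  · -- d1
    exact Nat.mul_pos (by omega) (by omega)
  · -- rr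
    calc t + t * t ≤ 2 * (t * t) := by omega
      _ ≤ 2 * 2 ^ (2 * l + 2) := Nat.mul_le_mul_left 2 htt
      _ = 2 ^ (2 * l + 3) := by rw [← pow_succ']
      _ ≤ 2 ^ (5 * l) := Nat.pow_le_pow_right (by norm_num) (by omega)
  · -- tau4
    refine tau_exp ε β n l N k (f - k) hε hN3 hl1 hlk hkn' (by omega) ?_
    rw [Nat.cast_sub (by omega)]
    linarith
  · -- cov
    have e2 : (2 : ℕ) ^ n = 2 ^ k * 2 ^ (n - k) := by
      rw [← pow_add]
      congr 1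
      omega
    rw [e2]
    have h1 : 4 * t < 2 ^ k := by
      calc 4 * t < 4 * 2 ^ (l + 1) := by omega
        _ = 2 ^ (l + 3) := by
          rw [pow_add, pow_add]
          ring
        _ ≤ 2 ^ k := Nat.pow_le_pow_right (by norm_num) (by omega)
    calc 4 * (t * 2 ^ (n - k)) = (4 * t) * 2 ^ (n - k) := by ring
      _ < 2 ^ k * 2 ^ (n - k) := Nat.mul_lt_mul_of_pos_right h1 (by positivity)
  · -- bad
    calc 2 ^ (n + t + 2) * (n / (640 * l * N ^ 2) * μ) ^ (t + 1)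
        ≤ 8 ^ (t + 1) * (n / (640 * l * N ^ 2) * μ) ^ (t + 1) := by
          apply Nat.mul_le_mul_right
          calc 2 ^ (n + t + 2) ≤ 2 ^ (3 * (t + 1)) :=
                Nat.pow_le_pow_right (by norm_num) (by omega)
            _ = 8 ^ (t + 1) := by rw [pow_mul]; norm_num
      _ = (8 * (n / (640 * l * N ^ 2) * μ)) ^ (t + 1) := (mul_pow _ _ _).symm
      _ ≤ (2 ^ k) ^ (t + 1) := Nat.pow_le_pow_left h8 _
  · -- hit
    calc 4 * (t * (n / (640 * l * N ^ 2) * μ)) ≤ 4 * (t * (t * μ)) := by gcongr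
      _ = 4 * (t ^ 2 * μ) := by ring
      _ ≤ 16384 * (t ^ 2 * μ) := Nat.mul_le_mul_right _ (by norm_num)
      _ = 16384 * t ^ 2 * μ := by ring
      _ ≤ 2 ^ k := htk
  · -- w + k
    rw [Nat.cast_sub (by omega)]
    linarith
  · exact last_ineq ε n l N k hε hN5 hN4 hl1 hk'

end Pool.Agent.H75.FLX
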